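import Pool.Agent.helper6.EV.Spec

/-!
# Part CN0 of project ev (MP_5a4a8e_nt)

The final inequality.
-/

set_option autoImplicit false

namespace Pool.Agent.EV

open N1f72dd46 Filter MeasureTheory Complex Metric Pool.Agent.helper6.LD

/-- A factor `(r^k)⁻¹` compared with `W^k`. -/
theorem CN0_fac (η L V w r γ : ℝ) (k : ℕ) (hr : 0 < r) (hw : 0 < w) (hV : (w ^ k)⁻¹ ≤ V)
    (hwr : w ≤ r * Real.exp (-(γ * η))) (hg : γ * L ≤ γ * η * k) :
    (r ^ k)⁻¹ ≤ Real.exp (-(γ * L)) * V := by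
  have h1 : w ^ k ≤ (r * Real.exp (-(γ * η))) ^ k := pow_le_pow_left₀ hw.le hwr k
  have h2 : (r * Real.exp (-(γ * η))) ^ k = r ^ k * Real.exp (-(γ * η * k)) := by
    rw [mul_pow, ← Real.exp_nat_mul]
    congr 2
    ring
  have h3 : Real.exp (-(γ * η * k)) ≤ Real.exp (-(γ * L)) := by
    apply Real.exp_le_exp.2
    linarith
  have hrk : 0 < r ^ k := pow_pos hr k
  have hwk : 0 < w ^ k := pow_pos hw k
  have h4 : w ^ k ≤ r ^ k * Real.exp (-(γ * L)) := by
    rw [h2] at h1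
    exact h1.trans (mul_le_mul_of_nonneg_left h3 hrk.le)
  have h5 : 1 ≤ V * w ^ k := by
    have := mul_le_mul_of_nonneg_right hV hwk.le
    rwa [inv_mul_cancel₀ hwk.ne'] at this
  have hV0 : 0 < V := lt_of_lt_of_le (inv_pos.2 hwk) hV
  rw [inv_le_iff_one_le_mul₀ hrk]
  calc (1 : ℝ) ≤ V * w ^ k := h5
    _ ≤ V * (r ^ k * Real.exp (-(γ * L))) := mul_le_mul_of_nonneg_left h4 hV0.le
    _ = Real.exp (-(γ * L)) * V * r ^ k := by ring

/-- The main estimate. -/
theorem CN0_main (C5 U c η A L t W : ℝ) (k : ℕ) (hC5 : 0 < C5) (hU : 0 < U) (hη : 0 < η)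
    (hη1 : η ≤ 1 / 100) (hηc : η ≤ c / 12) (hL : 1 ≤ L) (ht : t = Real.exp L)
    (hA : A = 3 / η + 1) (hUL : 4 * U * Real.exp 2 ≤ 100 * L)
    (hsm : 3 * C5 * (1 + U) * A ^ 3 * (L ^ 4 * Real.exp (-(L / 2))) < 1)
    (hk1 : L / η ≤ k) (hk2 : (k : ℝ) ≤ 3 * L / η) (hW : (3 * (1 + η / 16))⁻¹ ≤ W) :
    C5 * (L / t * ((3 * (1 + η)) ^ k)⁻¹ + (k + 1) ^ 2 * L / t * ((10 / 3) ^ k)⁻¹ +
      (k + 1) ^ 2 * L * W ^ k / t ^ 2 + ((3 + c) ^ k)⁻¹ + (t ^ 2)⁻¹ * (3 ^ k)⁻¹ +
      U ^ (k + 1) / k.factorial) < 2 * t ^ (-(5 / 4) : ℝ) * W ^ k / k := by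
  have hw : 0 < 3 * (1 + η / 16) := by positivity
  have hW0 : 0 < W := lt_of_lt_of_le (inv_pos.2 hw) hW
  set V : ℝ := W ^ k with hVdef
  have hV0 : 0 < V := pow_pos hW0 k
  have hV : ((3 * (1 + η / 16)) ^ k)⁻¹ ≤ V := by
    rw [← inv_pow]
    exact pow_le_pow_left₀ (inv_pos.2 hw).le hW k
  have hL0 : 0 < L := by linarith
  have hηk : L ≤ η * k := by
    rw [div_le_iff₀ hη] at hk1
    linarith
  have hηk3 : η * k ≤ 3 * L := by
    rw [le_div_iff₀ hη] at hk2
    linarith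
  have hk100 : 100 * L ≤ k := by nlinarith [hηk, Nat.cast_nonneg (α := ℝ) k]
  have hK0 : (0 : ℝ) < k := by linarith
  have hA1 : 1 ≤ A := by
    rw [hA]
    have : 0 < 3 / η := by positivity
    linarith
  have hAL : (k : ℝ) + 1 ≤ A * L := by
    rw [hA]
    have : 3 * L / η = 3 / η * L := by ring
    rw [this] at hk2
    nlinarith
  have hAL1 : 1 ≤ A * L := by nlinarith
  -- the common bound
  set B : ℝ := A ^ 3 * L ^ 4 * Real.exp (-(7 / 4 * L)) with hB
  have hA3 : (A * L) ^ 3 * L = A ^ 3 * L ^ 4 := by ring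
  have hk3 : ((k : ℝ) + 1) ^ 2 * k ≤ (A * L) ^ 3 := by
    have h1 : ((k : ℝ) + 1) ^ 2 ≤ (A * L) ^ 2 := pow_le_pow_left₀ (by positivity) hAL 2
    have h2 : (k : ℝ) ≤ A * L := by linarith
    calc ((k : ℝ) + 1) ^ 2 * k ≤ (A * L) ^ 2 * (A * L) :=
        mul_le_mul h1 h2 hK0.le (by positivity)
      _ = (A * L) ^ 3 := by ring
  have hkA : (k : ℝ) ≤ A ^ 3 * L ^ 4 := by
    rw [← hA3]
    have h2 : (k : ℝ) ≤ ((k : ℝ) + 1) ^ 2 * k := by nlinarith
    have h3 : (A * L) ^ 3 ≤ (A * L) ^ 3 * L := by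
      have : 0 ≤ (A * L) ^ 3 := by positivity
      nlinarith
    linarith
  have hLk : L * k ≤ A ^ 3 * L ^ 4 := by
    rw [← hA3]
    have h2 : (k : ℝ) ≤ ((k : ℝ) + 1) ^ 2 * k := by nlinarith
    have h3 : (k : ℝ) ≤ (A * L) ^ 3 := h2.trans hk3
    nlinarith
  have hk3L : ((k : ℝ) + 1) ^ 2 * L * k ≤ A ^ 3 * L ^ 4 := by
    rw [← hA3]
    nlinarith
  have hP0 : 0 ≤ A ^ 3 * L ^ 4 := by positivity
  -- a product bound
  have gen : ∀ (P Q δ : ℝ), 0 ≤ P → P ≤ A ^ 3 * L ^ 4 → 7 / 4 ≤ δ →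
      Q ≤ Real.exp (-(δ * L)) * V → P * Q ≤ B * V := by
    intro P Q δ hP0 hP hδ hQ
    have h1 : Real.exp (-(δ * L)) ≤ Real.exp (-(7 / 4 * L)) := by
      apply Real.exp_le_exp.2
      nlinarith
    calc P * Q ≤ P * (Real.exp (-(δ * L)) * V) := mul_le_mul_of_nonneg_left hQ hP0
      _ ≤ (A ^ 3 * L ^ 4) * (Real.exp (-(7 / 4 * L)) * V) := by
          apply mul_le_mul hP _ (by positivity) (by positivity)
          exact mul_le_mul_of_nonneg_right h1 hV0.le
      _ = B * V := by rw [hB]; ring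
  have hti : ∀ x : ℝ, x / t = x * Real.exp (-L) := by
    intro x
    rw [ht, Real.exp_neg]
    rfl
  have ht2 : t ^ 2 = Real.exp (2 * L) := by
    rw [ht, ← Real.exp_nat_mul]
    norm_num
  -- term 1
  have e1 : k * (L / t * ((3 * (1 + η)) ^ k)⁻¹) ≤ B * V := by
    have h1 : ((3 * (1 + η)) ^ k)⁻¹ ≤ Real.exp (-(9 / 10 * L)) * V := by
      apply CN0_fac η L V (3 * (1 + η / 16)) (3 * (1 + η)) (9 / 10) k (by positivity) hw hV
      · have h2 : 1 - 9 / 10 * η ≤ Real.exp (-(9 / 10 * η)) := by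
          have := Real.add_one_le_exp (-(9 / 10 * η))
          linarith
        have h3 : 3 * (1 + η) * (1 - 9 / 10 * η) ≤ 3 * (1 + η) * Real.exp (-(9 / 10 * η)) :=
          mul_le_mul_of_nonneg_left h2 (by positivity)
        nlinarith
      · nlinarith
    have h4 := gen (L * k) (Real.exp (-L) * ((3 * (1 + η)) ^ k)⁻¹) (19 / 10) (by positivity) hLk
      (by norm_num) (by
        calc Real.exp (-L) * ((3 * (1 + η)) ^ k)⁻¹
            ≤ Real.exp (-L) * (Real.exp (-(9 / 10 * L)) * V) :=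
              mul_le_mul_of_nonneg_left h1 (Real.exp_pos _).le
          _ = Real.exp (-(19 / 10 * L)) * V := by
              rw [← mul_assoc, ← Real.exp_add]
              congr 2
              ring)
    rw [hti]
    calc k * (L * Real.exp (-L) * ((3 * (1 + η)) ^ k)⁻¹)
        = L * k * (Real.exp (-L) * ((3 * (1 + η)) ^ k)⁻¹) := by ring
      _ ≤ B * V := h4
  -- term 2
  have e2 : k * ((k + 1) ^ 2 * L / t * ((10 / 3 : ℝ) ^ k)⁻¹) ≤ B * V := by
    have h1 : ((10 / 3 : ℝ) ^ k)⁻¹ ≤ Real.exp (-(1 * L)) * V := by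
      apply CN0_fac η L V (3 * (1 + η / 16)) (10 / 3) 1 k (by norm_num) hw hV
      · have h2 := Real.add_one_le_exp (-(1 * η))
        nlinarith
      · nlinarith
    have h4 := gen (((k : ℝ) + 1) ^ 2 * L * k) (Real.exp (-L) * ((10 / 3 : ℝ) ^ k)⁻¹) 2
      (by positivity) hk3L (by norm_num) (by
        calc Real.exp (-L) * ((10 / 3 : ℝ) ^ k)⁻¹
            ≤ Real.exp (-L) * (Real.exp (-(1 * L)) * V) :=
              mul_le_mul_of_nonneg_left h1 (Real.exp_pos _).le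
          _ = Real.exp (-(2 * L)) * V := by
              rw [← mul_assoc, ← Real.exp_add]
              congr 2
              ring)
    rw [hti]
    calc k * (((k : ℝ) + 1) ^ 2 * L * Real.exp (-L) * ((10 / 3 : ℝ) ^ k)⁻¹)
        = ((k : ℝ) + 1) ^ 2 * L * k * (Real.exp (-L) * ((10 / 3 : ℝ) ^ k)⁻¹) := by ring
      _ ≤ B * V := h4
  -- term 3
  have e3 : k * ((k + 1) ^ 2 * L * V / t ^ 2) ≤ B * V := by
    have h4 := gen (((k : ℝ) + 1) ^ 2 * L * k) (Real.exp (-(2 * L)) * V) 2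
      (by positivity) hk3L (by norm_num) le_rfl
    rw [ht2]
    calc k * (((k : ℝ) + 1) ^ 2 * L * V / Real.exp (2 * L))
        = ((k : ℝ) + 1) ^ 2 * L * k * (Real.exp (-(2 * L)) * V) := by
          rw [Real.exp_neg]
          field_simp
      _ ≤ B * V := h4
  -- term 4
  have e4 : k * ((3 + c) ^ k)⁻¹ ≤ B * V := by
    have hc : 12 * η ≤ c := by linarith
    have h1 : ((3 + c) ^ k)⁻¹ ≤ Real.exp (-(2 * L)) * V := by
      apply CN0_fac η L V (3 * (1 + η / 16)) (3 + c) 2 k (by linarith) hw hV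
      · have h2 := Real.add_one_le_exp (-(2 * η))
        have h3 : (3 + 12 * η) * (1 - 2 * η) ≤ (3 + c) * Real.exp (-(2 * η)) :=
          mul_le_mul (by linarith) (by linarith) (by linarith) (by linarith)
        nlinarith
      · nlinarith
    exact gen k _ 2 hK0.le hkA (by norm_num) h1
  -- term 5
  have e5 : k * ((t ^ 2)⁻¹ * ((3 : ℝ) ^ k)⁻¹) ≤ B * V := by
    have h1 : ((3 : ℝ) ^ k)⁻¹ ≤ Real.exp (-(-(3 / 16) * L)) * V := by
      have h2 : ((3 : ℝ) ^ k)⁻¹ ≤ Real.exp (-(-(1 / 16) * (3 * L))) * V := by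
        apply CN0_fac η (3 * L) V (3 * (1 + η / 16)) 3 (-(1 / 16)) k (by norm_num) hw hV
        · have h2 := Real.add_one_le_exp (-(-(1 / 16) * η))
          nlinarith
        · nlinarith
      have h3 : -(-(1 / 16) * (3 * L)) = -(-(3 / 16) * L) := by ring
      rwa [h3] at h2
    have h4 := gen k ((t ^ 2)⁻¹ * ((3 : ℝ) ^ k)⁻¹) (29 / 16) hK0.le hkA (by norm_num) (by
        rw [ht2, ← Real.exp_neg]
        calc Real.exp (-(2 * L)) * ((3 : ℝ) ^ k)⁻¹
            ≤ Real.exp (-(2 * L)) * (Real.exp (-(-(3 / 16) * L)) * V) :=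
              mul_le_mul_of_nonneg_left h1 (Real.exp_pos _).le
          _ = Real.exp (-(29 / 16 * L)) * V := by
              rw [← mul_assoc, ← Real.exp_add]
              congr 2
              ring)
    exact h4
  -- term 6
  have e6 : k * (U ^ (k + 1) / k.factorial) ≤ U * (B * V) := by
    have hf0 : (0 : ℝ) < k.factorial := by exact_mod_cast Nat.factorial_pos k
    have h1 : (4 * U * Real.exp 2) ^ k / k.factorial ≤ Real.exp (4 * U * Real.exp 2) :=
      Real.pow_div_factorial_le_exp _ (by positivity) k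
    have h2 : U ^ k / k.factorial ≤ Real.exp (-(2 * L)) * V := by
      have h3 : U ^ k ≤ (4 * U) ^ k * V := by
        have h4 : 1 ≤ 4 ^ k * V := by
          have h5 : ((4 : ℝ) ^ k)⁻¹ ≤ V := by
            refine le_trans ?_ hV
            apply inv_anti₀ (pow_pos hw k)
            apply pow_le_pow_left₀ hw.le
            nlinarith
          have h6 : (0 : ℝ) < 4 ^ k := by positivity
          have h7 := mul_le_mul_of_nonneg_left h5 h6.le
          rwa [mul_inv_cancel₀ h6.ne'] at h7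
        have h5 : 0 < U ^ k := pow_pos hU k
        calc U ^ k = U ^ k * 1 := by ring
          _ ≤ U ^ k * (4 ^ k * V) := mul_le_mul_of_nonneg_left h4 h5.le
          _ = (4 * U) ^ k * V := by rw [mul_pow]; ring
      have h4 : (4 * U) ^ k / k.factorial ≤ Real.exp (-(2 * L)) := by
        have h5 : (4 * U * Real.exp 2) ^ k = (4 * U) ^ k * Real.exp (2 * k) := by
          rw [mul_pow, ← Real.exp_nat_mul]
          congr 2
          ring
        rw [h5] at h1
        have h6 : (4 * U) ^ k / k.factorial * Real.exp (2 * k) ≤ Real.exp (4 * U * Real.exp 2) := by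
          rw [div_mul_eq_mul_div]
          exact h1
        have h7 : (4 * U) ^ k / k.factorial ≤
            Real.exp (4 * U * Real.exp 2) * Real.exp (-(2 * k)) := by
          rw [Real.exp_neg, ← div_eq_mul_inv, le_div_iff₀ (Real.exp_pos _)]
          exact h6
        refine h7.trans ?_
        rw [← Real.exp_add]
        apply Real.exp_le_exp.2
        linarith
      calc U ^ k / k.factorial ≤ (4 * U) ^ k * V / k.factorial := by gcongr
        _ = (4 * U) ^ k / k.factorial * V := by ring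
        _ ≤ Real.exp (-(2 * L)) * V := mul_le_mul_of_nonneg_right h4 hV0.le
    have h3 := gen k _ 2 hK0.le hkA (by norm_num) h2
    calc k * (U ^ (k + 1) / k.factorial) = U * (k * (U ^ k / k.factorial)) := by
          rw [pow_succ]
          ring
      _ ≤ U * (B * V) := mul_le_mul_of_nonneg_left h3 hU.le
  -- conclusion
  have hB0 : 0 < B := by
    rw [hB]
    have : 0 < A := by linarith
    positivity
  have hBV : 0 < B * V := mul_pos hB0 hV0
  have htr : t ^ (-(5 / 4) : ℝ) = Real.exp (-(5 / 4 * L)) := by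
    rw [ht, ← Real.exp_mul]
    congr 1
    ring
  rw [htr, lt_div_iff₀ hK0]
  have hfin : 3 * C5 * (1 + U) * B < Real.exp (-(5 / 4 * L)) := by
    have h1 : 3 * C5 * (1 + U) * B =
        3 * C5 * (1 + U) * A ^ 3 * (L ^ 4 * Real.exp (-(L / 2))) * Real.exp (-(5 / 4 * L)) := by
      have h2 : Real.exp (-(7 / 4 * L)) = Real.exp (-(L / 2)) * Real.exp (-(5 / 4 * L)) := by
        rw [← Real.exp_add]
        congr 1
        ring
      rw [hB, h2]
      ring
    rw [h1]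
    have := mul_lt_mul_of_pos_right hsm (Real.exp_pos (-(5 / 4 * L)))
    linarith
  have hsum : C5 * (L / t * ((3 * (1 + η)) ^ k)⁻¹ + (k + 1) ^ 2 * L / t * ((10 / 3) ^ k)⁻¹ +
      (k + 1) ^ 2 * L * V / t ^ 2 + ((3 + c) ^ k)⁻¹ + (t ^ 2)⁻¹ * (3 ^ k)⁻¹ +
      U ^ (k + 1) / k.factorial) * k ≤ C5 * ((5 + U) * (B * V)) := by
    have h1 : C5 * (L / t * ((3 * (1 + η)) ^ k)⁻¹ + (k + 1) ^ 2 * L / t * ((10 / 3) ^ k)⁻¹ +
      (k + 1) ^ 2 * L * V / t ^ 2 + ((3 + c) ^ k)⁻¹ + (t ^ 2)⁻¹ * (3 ^ k)⁻¹ +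
      U ^ (k + 1) / k.factorial) * k =
      C5 * (k * (L / t * ((3 * (1 + η)) ^ k)⁻¹) + k * ((k + 1) ^ 2 * L / t * ((10 / 3) ^ k)⁻¹) +
      k * ((k + 1) ^ 2 * L * V / t ^ 2) + k * ((3 + c) ^ k)⁻¹ + k * ((t ^ 2)⁻¹ * (3 ^ k)⁻¹) +
      k * (U ^ (k + 1) / k.factorial)) := by ring
    rw [h1]
    apply mul_le_mul_of_nonneg_left _ hC5.le
    linarith
  have hlast : C5 * ((5 + U) * (B * V)) < 2 * Real.exp (-(5 / 4 * L)) * V := by
    have h1 : C5 * ((5 + U) * (B * V)) ≤ 2 * (3 * C5 * (1 + U) * B) * V := by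
      have h2 : 0 < C5 * (B * V) := mul_pos hC5 hBV
      nlinarith
    have h3 := mul_lt_mul_of_pos_right hfin hV0
    linarith
  exact lt_of_le_of_lt hsum hlast

theorem CN0 : CN0_stmt := by
  intro C5 U c η hC5 hU hc hη hη1 hηc
  have hlim : Tendsto (fun L : ℝ => 3 * C5 * (1 + U) * (3 / η + 1) ^ 3 *
      (L ^ 4 * Real.exp (-(L / 2)))) atTop (nhds 0) := by
    have h1 := Real.tendsto_pow_mul_exp_neg_atTop_nhds_zero 4
    have h2 : Tendsto (fun L : ℝ => L / 2) atTop atTop := tendsto_id.atTop_div_const (by norm_num)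
    have h3 := (h1.comp h2).const_mul (3 * C5 * (1 + U) * (3 / η + 1) ^ 3 * 16)
    rw [mul_zero] at h3
    refine h3.congr fun L => ?_
    simp only [Function.comp_apply]
    ring
  have hev : ∀ᶠ L : ℝ in atTop, (3 * C5 * (1 + U) * (3 / η + 1) ^ 3 *
      (L ^ 4 * Real.exp (-(L / 2))) < 1) ∧ 1 ≤ L ∧ 4 * U * Real.exp 2 / 100 ≤ L :=
    ((hlim.eventually (gt_mem_nhds zero_lt_one)).and
      ((eventually_ge_atTop 1).and (eventually_ge_atTop _)))
  obtain ⟨t0, ht0⟩ := eventually_atTop.1 (Real.tendsto_log_atTop.eventually hev)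
  refine ⟨max t0 1, fun t W k ht hk1 hk2 hW => ?_⟩
  have htpos : 0 < t := lt_of_lt_of_le one_pos ((le_max_right _ _).trans ht)
  obtain ⟨h1, h2, h3⟩ := ht0 t ((le_max_left _ _).trans ht)
  exact CN0_main C5 U c η (3 / η + 1) (Real.log t) t W k hC5 hU hη hη1 hηc h2
    (Real.exp_log htpos).symm rfl (by linarith) h1 hk1 hk2 hW

end Pool.Agent.EV
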